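import Pool.Agent.Helper53.Comp.GoalsG

/-!
# Packet G5: limits of rational functions
-/

namespace Mono

namespace Comp

open Finset Filter Topology

namespace G5

/-- The polynomial `(X + a)^D q(1/(X + a))`. -/
noncomputable def rv (D : ℕ) (q : Polynomial ℝ) (a : ℝ) : Polynomial ℝ :=
  ∑ k ∈ range (D + 1), Polynomial.C (q.coeff k) * (Polynomial.X + Polynomial.C a) ^ (D - k)

theorem rv_eval (D : ℕ) (q : Polynomial ℝ) (a s : ℝ) (hq : q.natDegree ≤ D) (h : s + a ≠ 0) :
    (rv D q a).eval s = q.eval (1 / (s + a)) * (s + a) ^ D := by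
  rw [rv, Polynomial.eval_finsetSum, Polynomial.eval_eq_sum_range' (n := D + 1) (by omega),
    Finset.sum_mul]
  refine Finset.sum_congr rfl fun k hk => ?_
  have hk' : k ≤ D := by
    have := Finset.mem_range.1 hk
    omega
  simp only [Polynomial.eval_mul, Polynomial.eval_C, Polynomial.eval_pow, Polynomial.eval_add,
    Polynomial.eval_X]
  have h2 : (s + a) ^ D = (s + a) ^ k * (s + a) ^ (D - k) := by
    rw [← pow_add]
    congr 1
    omega
  rw [h2, one_div, inv_pow]
  field_simp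

theorem rv_natDegree (D : ℕ) (q : Polynomial ℝ) (a : ℝ) : (rv D q a).natDegree ≤ D := by
  refine Polynomial.natDegree_sum_le_of_forall_le _ _ fun k _ => ?_
  refine (Polynomial.natDegree_C_mul_le _ _).trans ?_
  refine Polynomial.natDegree_pow_le.trans ?_
  rw [Polynomial.natDegree_X_add_C]
  omega

/-- The numerator of the sum over `J`. -/
noncomputable def numer {ι : Type} [DecidableEq ι] (J : Finset ι) (D : ℕ) (q : ι → Polynomial ℝ)
    (a : ι → ℝ) : Polynomial ℝ :=
  ∑ i ∈ J, rv D (q i) (a i) * ∏ j ∈ J.erase i, (Polynomial.X + Polynomial.C (a j)) ^ D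

theorem numer_eval {ι : Type} [DecidableEq ι] (J : Finset ι) (D : ℕ) (q : ι → Polynomial ℝ)
    (a : ι → ℝ) (s : ℝ) (hq : ∀ i ∈ J, (q i).natDegree ≤ D) (h : ∀ i ∈ J, s + a i ≠ 0) :
    (numer J D q a).eval s =
      (∑ i ∈ J, (q i).eval (1 / (s + a i))) * ∏ j ∈ J, (s + a j) ^ D := by
  rw [numer, Polynomial.eval_finsetSum, Finset.sum_mul]
  refine Finset.sum_congr rfl fun i hi => ?_
  rw [Polynomial.eval_mul, rv_eval D (q i) (a i) s (hq i hi) (h i hi), Polynomial.eval_prod,
    ← Finset.mul_prod_erase J (fun j => (s + a j) ^ D) hi]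
  simp only [Polynomial.eval_pow, Polynomial.eval_add, Polynomial.eval_X, Polynomial.eval_C]
  ring

theorem numer_natDegree {ι : Type} [DecidableEq ι] (J : Finset ι) (D : ℕ) (q : ι → Polynomial ℝ)
    (a : ι → ℝ) : (numer J D q a).natDegree ≤ D * J.card := by
  refine Polynomial.natDegree_sum_le_of_forall_le _ _ fun i hi => ?_
  refine Polynomial.natDegree_mul_le.trans ?_
  have h1 := rv_natDegree D (q i) (a i)
  have h2 : (∏ j ∈ J.erase i, (Polynomial.X + Polynomial.C (a j)) ^ D).natDegree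
      ≤ D * (J.erase i).card := by
    refine (Polynomial.natDegree_prod_le _ _).trans ?_
    refine (Finset.sum_le_card_nsmul _ _ D fun j _ => ?_).trans ?_
    · refine Polynomial.natDegree_pow_le.trans ?_
      rw [Polynomial.natDegree_X_add_C]
      omega
    · rw [smul_eq_mul, mul_comm]
  have h3 : (J.erase i).card + 1 = J.card := Finset.card_erase_add_one hi
  calc _ ≤ D + D * (J.erase i).card := Nat.add_le_add h1 h2
    _ = D * J.card := by rw [← h3]; ring

/-- A pointwise limit, on the positive numbers, of polynomials of bounded degree is a polynomial. -/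
theorem lim_poly (d : ℕ) (P : ℝ → Polynomial ℝ) (L : ℝ → ℝ)
    (hd : ∀ᶠ ε : ℝ in 𝓝[>] 0, (P ε).natDegree ≤ d)
    (hL : ∀ s : ℝ, 0 < s → Tendsto (fun ε => (P ε).eval s) (𝓝[>] 0) (𝓝 (L s))) :
    ∃ Q : Polynomial ℝ, ∀ s : ℝ, 0 < s → L s = Q.eval s := by
  set v : ℕ → ℝ := fun m => (m : ℝ) + 1 with hv
  have hinj : Set.InjOn v (range (d + 1) : Set ℕ) := by
    intro x _ y _ hxy
    simp only [hv] at hxy
    exact_mod_cast add_right_cancel hxy
  refine ⟨Lagrange.interpolate (range (d + 1)) v (fun m => L (v m)), fun s hs => ?_⟩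
  have h1 : Tendsto (fun ε => ∑ m ∈ range (d + 1),
      (P ε).eval (v m) * (Lagrange.basis (range (d + 1)) v m).eval s) (𝓝[>] 0)
      (𝓝 (∑ m ∈ range (d + 1), L (v m) * (Lagrange.basis (range (d + 1)) v m).eval s)) := by
    refine tendsto_finsetSum _ fun m _ => ?_
    exact (hL (v m) (by simp only [hv]; positivity)).mul_const _
  have h2 : ∀ᶠ ε : ℝ in 𝓝[>] 0, (P ε).eval s = ∑ m ∈ range (d + 1),
      (P ε).eval (v m) * (Lagrange.basis (range (d + 1)) v m).eval s := by
    filter_upwards [hd] with ε hε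
    have h3 : P ε = Lagrange.interpolate (range (d + 1)) v (fun m => (P ε).eval (v m)) := by
      refine Lagrange.eq_interpolate hinj ?_
      rw [Finset.card_range]
      refine lt_of_le_of_lt Polynomial.degree_le_natDegree ?_
      exact_mod_cast Nat.lt_succ_of_le hε
    conv_lhs => rw [h3]
    rw [Lagrange.interpolate_apply, Polynomial.eval_finsetSum]
    refine Finset.sum_congr rfl fun m _ => ?_
    rw [Polynomial.eval_mul, Polynomial.eval_C]
  have h4 := tendsto_nhds_unique (hL s hs) (h1.congr' (h2.mono fun ε h => h.symm))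
  rw [h4, Lagrange.interpolate_apply, Polynomial.eval_finsetSum]
  refine Finset.sum_congr rfl fun m _ => ?_
  rw [Polynomial.eval_mul, Polynomial.eval_C]

end G5

open G5 in
theorem limLemma : LimLemma := by
  classical
  intro ι I G D q a a₀ R hdeg ha ha0 hG hlim
  set J : Finset ι := I.filter (fun i => a₀ i ∈ G) with hJ
  have hJI : ∀ i ∈ J, i ∈ I := fun i hi => (Finset.mem_filter.1 hi).1
  have hJG : ∀ i ∈ J, a₀ i ∈ G := fun i hi => (Finset.mem_filter.1 hi).2
  -- the sum over `I` is the sum over `J`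
  have hsum : ∀ s : ℝ, ∀ᶠ ε : ℝ in 𝓝[>] 0, ∑ i ∈ I, (q ε i).eval (1 / (s + a ε i)) =
      ∑ i ∈ J, (q ε i).eval (1 / (s + a ε i)) := by
    intro s
    filter_upwards [hG] with ε hε
    rw [hJ, Finset.sum_filter]
    refine Finset.sum_congr rfl fun i hi => ?_
    split_ifs with h
    · rfl
    · have : q ε i = 0 := by
        by_contra h'
        exact h (hε i hi h')
      rw [this, Polynomial.eval_zero]
  -- positivity
  have hpos : ∀ᶠ ε : ℝ in 𝓝[>] 0, ∀ i ∈ I, 0 < a ε i := by
    rw [Filter.eventually_all_finset]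
    intro i hi
    exact (ha i hi).eventually (lt_mem_nhds (ha0 i hi))
  have hnum : ∀ s : ℝ, 0 < s → Tendsto (fun ε => (numer J D (q ε) (a ε)).eval s) (𝓝[>] 0)
      (𝓝 (R s * ∏ j ∈ J, (s + a₀ j) ^ D)) := by
    intro s hs
    have h1 : Tendsto (fun ε => (∑ i ∈ I, (q ε i).eval (1 / (s + a ε i))) *
        ∏ j ∈ J, (s + a ε j) ^ D) (𝓝[>] 0) (𝓝 (R s * ∏ j ∈ J, (s + a₀ j) ^ D)) := by
      refine (hlim s hs).mul (tendsto_finsetProd _ fun j hj => ?_)
      exact ((ha j (hJI j hj)).const_add s).pow D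
    refine h1.congr' ?_
    filter_upwards [hsum s, hpos] with ε h2 h3
    rw [h2, numer_eval J D (q ε) (a ε) s (fun i hi => hdeg ε i (hJI i hi))
      (fun i hi => by have := h3 i (hJI i hi); positivity)]
  obtain ⟨P, hP⟩ := lim_poly (D * J.card) (fun ε => numer J D (q ε) (a ε))
    (fun s => R s * ∏ j ∈ J, (s + a₀ j) ^ D)
    (Filter.Eventually.of_forall fun ε => numer_natDegree J D (q ε) (a ε)) hnum
  refine ⟨D * J.card, P * ∏ j ∈ J, ∏ b ∈ G.erase (a₀ j), (Polynomial.X + Polynomial.C b) ^ D,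
    fun s hs => ?_⟩
  have h5 : ∏ b ∈ G, (s + b) ^ (D * J.card) =
      (∏ j ∈ J, (s + a₀ j) ^ D) * ∏ j ∈ J, ∏ b ∈ G.erase (a₀ j), (s + b) ^ D := by
    rw [← Finset.prod_mul_distrib]
    have h6 : ∀ j ∈ J, (s + a₀ j) ^ D * ∏ b ∈ G.erase (a₀ j), (s + b) ^ D =
        ∏ b ∈ G, (s + b) ^ D := fun j hj =>
      Finset.mul_prod_erase G (fun b => (s + b) ^ D) (hJG j hj)
    rw [Finset.prod_congr rfl h6, Finset.prod_const, ← Finset.prod_pow]
    refine Finset.prod_congr rfl fun b _ => ?_
    rw [← pow_mul]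
  rw [h5, ← mul_assoc, Polynomial.eval_mul, Polynomial.eval_prod]
  have h7 := hP s hs
  rw [h7]
  congr 1
  refine Finset.prod_congr rfl fun j _ => ?_
  rw [Polynomial.eval_prod]
  refine Finset.prod_congr rfl fun b _ => ?_
  simp only [Polynomial.eval_pow, Polynomial.eval_add, Polynomial.eval_X, Polynomial.eval_C]

end Comp

end Mono
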